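import Pool.Agent.H288.BI.Stm

/-!
# Hard spheres, interpolation: assembly
-/

set_option autoImplicit false

open MeasureTheory Set Filter Topology

namespace Pool.Agent.H288.BI.ASMN

open Pool.Agent.H288.HS Pool.Agent.H288.BI

theorem num (D β : ℝ) (hD : 0 < D) (hβ : 1 < β) : ∃ C : ℝ, 0 < C ∧ ∀ X : ℝ, 1 ≤ X →
    ∀ ε : ℝ, 0 < ε → ε < 1 → ∀ m : ℕ, C * (1 + Real.log (X / ε)) ≤ m →
      D * X * (β⁻¹) ^ m ≤ ε := by
  have hlb : 0 < Real.log β := Real.log_pos hβ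
  have hA : 0 < |Real.log D| + 1 := by positivity
  refine ⟨(|Real.log D| + 1) / Real.log β, div_pos hA hlb, fun X hX ε hε hε1 m hm => ?_⟩
  have hXε : 1 ≤ X / ε := by rw [le_div_iff₀ hε]; linarith
  have hx : 0 ≤ Real.log (X / ε) := Real.log_nonneg hXε
  have hβ0 : 0 < β := by linarith
  have hXε0 : 0 < X / ε := by linarith
  have h1 : (|Real.log D| + 1) * (1 + Real.log (X / ε)) ≤ m * Real.log β := by
    rw [div_mul_eq_mul_div, div_le_iff₀ hlb] at hm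
    exact hm
  have h2 : Real.log D + Real.log (X / ε) ≤ m * Real.log β := by
    have := le_abs_self (Real.log D)
    have h3 : 0 ≤ |Real.log D| * Real.log (X / ε) := mul_nonneg (abs_nonneg _) hx
    nlinarith
  have h3 : D * (X / ε) ≤ β ^ m := by
    rw [← Real.log_mul hD.ne' hXε0.ne', ← Real.log_pow] at h2
    exact (Real.log_le_log_iff (by positivity) (by positivity)).1 h2
  rw [inv_pow, ← div_eq_mul_inv, div_le_iff₀ (by positivity)]
  have h4 : D * X = ε * (D * (X / ε)) := by field_simp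
  rw [h4]
  exact mul_le_mul_of_nonneg_left h3 hε.le

theorem summ (a : ℕ → ℝ) (X : ℝ) (h : ∀ k : ℕ, 0 ≤ a k ∧ a k ≤ X ^ k / (k.factorial : ℝ))
    (r : ℝ) : Summable fun j : ℕ => |a j| * |r| ^ j := by
  have h1 := Real.summable_pow_div_factorial (X * |r|)
  refine Summable.of_nonneg_of_le (fun j => by positivity) (fun j => ?_) h1
  rw [abs_of_nonneg (h j).1, mul_pow]
  calc a j * |r| ^ j ≤ X ^ j / (j.factorial : ℝ) * |r| ^ j :=
        mul_le_mul_of_nonneg_right (h j).2 (by positivity)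
    _ = X ^ j * |r| ^ j / (j.factorial : ℝ) := by ring

theorem diffZ (a : ℕ → ℝ) (h : ∀ r : ℝ, Summable fun j : ℕ => |a j| * |r| ^ j) (w : ℂ) :
    DifferentiableAt ℂ (fun l : ℂ => ∑' k : ℕ, (a k : ℂ) * l ^ k) w := by
  have hU : IsOpen (Metric.ball (0 : ℂ) (‖w‖ + 1)) := Metric.isOpen_ball
  have h1 : DifferentiableOn ℂ (fun l : ℂ => ∑' k : ℕ, (a k : ℂ) * l ^ k)
      (Metric.ball (0 : ℂ) (‖w‖ + 1)) := by
    refine Complex.differentiableOn_tsum_of_summable_norm (h (‖w‖ + 1)) (fun i => ?_) hU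
      (fun i l hl => ?_)
    · fun_prop
    · rw [norm_mul, norm_pow, Complex.norm_real, Real.norm_eq_abs]
      have h2 : ‖l‖ ≤ |‖w‖ + 1| := by
        rw [abs_of_nonneg (by positivity)]
        have h3 : ‖l‖ < ‖w‖ + 1 := by simpa using hl
        exact h3.le
      exact mul_le_mul_of_nonneg_left (pow_le_pow_left₀ (norm_nonneg _) h2 i) (abs_nonneg _)
  exact h1.differentiableAt (hU.mem_nhds (by simp))

end Pool.Agent.H288.BI.ASMN

namespace Pool.Agent.H288.BI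

open Pool.Agent.H288.HS

theorem t_ASM : S_ASM := by
  intro hCAU hMAP hCMP d z l₁ ε₀ M hl₁ hε₀ hM hz hfree
  obtain ⟨κ, β, B, hκ, hβ, hB, φ, hφs, hφ1, hφ⟩ := hMAP l₁ ε₀ hl₁ hε₀
  have hβ1 : 0 < β - 1 := by linarith
  have hβ0 : 0 < β := by linarith
  have hD : 0 < l₁ * B * M * β / (β - 1) := by positivity
  obtain ⟨C, hC, hnum⟩ := ASMN.num (l₁ * B * M * β / (β - 1)) β hD hβ
  refine ⟨κ, hκ, C, hC, fun L hL l hl0 hl1 ε hε hε1 m hm => ?_⟩
  have hL0 : 0 < L := by linarith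
  obtain ⟨hz0, hzk⟩ := hz L hL0
  have hs : ∀ r : ℝ, Summable fun j : ℕ => |z L j| * |r| ^ j := ASMN.summ (z L) (L ^ d) hzk
  have hZd : ∀ w, DifferentiableAt ℂ (ZC z L) w := fun w => ASMN.diffZ (z L) hs w
  have hLd : 1 ≤ L ^ d := one_le_pow₀ hL
  have hB' : 0 ≤ l₁ * B * M * L ^ d := by positivity
  have hp0 : fc κ l (z L) 0 = 1 := by
    unfold fc
    rw [zero_add, Finset.sum_range_one, hz0, pow_zero]
    simp [pc]
  have hder : ∀ w : ℂ, ‖w‖ < β → HasDerivAt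
      (fun w : ℂ => ∑' j : ℕ, (z L j : ℂ) * ((l : ℂ) * φ w) ^ j)
      (deriv (ZC z L) ((l : ℂ) * φ w) * ((l : ℂ) * deriv φ w)) w := by
    intro w hw
    have h1 := (hZd ((l : ℂ) * φ w)).hasDerivAt
    have h2 := ((hφ w hw).1.hasDerivAt).const_mul (l : ℂ)
    exact HasDerivAt.comp w h1 h2
  obtain ⟨c1, c2, c3⟩ := hCAU (fun w : ℂ => ∑' j : ℕ, (z L j : ℂ) * ((l : ℂ) * φ w) ^ j)
    (fc κ l (z L)) β (l₁ * B * M * L ^ d) hβ hB'
    (fun w hw => hCMP (z L) κ l β φ hκ hβ0 hφs hs w hw) hp0 (fun w hw => by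
      obtain ⟨f1, f2⟩ := hfree L hL0 ((l : ℂ) * φ w) ((hφ w hw).2.2 l hl0 hl1)
      refine ⟨f1, ?_⟩
      rw [(hder w hw).deriv, norm_mul, norm_mul, Complex.norm_real, Real.norm_eq_abs,
        abs_of_nonneg hl0]
      have g1 : l * ‖deriv φ w‖ ≤ l₁ * B :=
        mul_le_mul hl1 (hφ w hw).2.1 (norm_nonneg _) hl₁.le
      calc ‖deriv (ZC z L) ((l : ℂ) * φ w)‖ * (l * ‖deriv φ w‖)
          ≤ (M * L ^ d * ‖ZC z L ((l : ℂ) * φ w)‖) * (l₁ * B) :=
            mul_le_mul f2 g1 (mul_nonneg hl0 (norm_nonneg _)) (by positivity)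
        _ = l₁ * B * M * L ^ d * ‖ZC z L ((l : ℂ) * φ w)‖ := by ring) m
  have hre : (∑' j : ℕ, (z L j : ℂ) * ((l : ℂ) * φ 1) ^ j).re = ZM z L 0 l := by
    rw [hφ1, mul_one]
    have h1 : (∑' j : ℕ, (z L j : ℂ) * (l : ℂ) ^ j) = ((∑' j : ℕ, z L j * l ^ j : ℝ) : ℂ) := by
      rw [Complex.ofReal_tsum]
      refine tsum_congr fun j => ?_
      push_cast
      rfl
    rw [h1, Complex.ofReal_re]
    unfold ZM
    refine tsum_congr fun j => ?_
    rw [pow_zero, one_mul]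
  have c3' : |Real.log (ZM z L 0 l) - appr κ l (z L) m| ≤
      l₁ * B * M * L ^ d * β / (β - 1) * (β⁻¹) ^ m := by
    rw [← hre]
    exact c3
  refine c3'.trans ?_
  have h5 := hnum (L ^ d) hLd ε hε hε1 m hm
  refine le_trans (le_of_eq ?_) h5
  ring

end Pool.Agent.H288.BI
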