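import Pool.Agent.H288.BI.Stm

/-!
# Taylor coefficients of the logarithm (task BI-CAU, helper591)
-/

set_option autoImplicit false

namespace Pool.Agent.H288.BI.CAUN

open Metric Set Filter Topology

theorem fps (F : ℂ → ℂ) (p : ℕ → ℝ) (β : ℝ) (hβ : 0 < β)
    (h : ∀ z : ℂ, ‖z‖ < β → HasSum (fun k : ℕ => (p k : ℂ) * z ^ k) (F z)) :
    HasFPowerSeriesOnBall F (FormalMultilinearSeries.ofScalars ℂ (fun k => (p k : ℂ))) 0
      (ENNReal.ofReal β) where
  r_le := by
    refine ENNReal.le_of_forall_nnreal_lt fun r hr => ?_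
    have hr' : (r : ℝ) < β := by
      have h1 := (ENNReal.lt_ofReal_iff_toReal_lt ENNReal.coe_ne_top).1 hr
      exact h1
    refine FormalMultilinearSeries.le_radius_of_tendsto _ (l := 0) ?_
    have h1 := (h (((r : ℝ) : ℂ)) (by
      rw [Complex.norm_real, Real.norm_of_nonneg (NNReal.coe_nonneg r)]
      exact hr')).summable.tendsto_atTop_zero
    have h2 := h1.norm
    rw [norm_zero] at h2
    refine h2.congr fun n => ?_
    rw [norm_mul, norm_pow, Complex.norm_real (r : ℝ), Real.norm_of_nonneg (NNReal.coe_nonneg r),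
      FormalMultilinearSeries.ofScalars_norm]
  r_pos := ENNReal.ofReal_pos.2 hβ
  hasSum := by
    intro y hy
    have hy' : ‖y‖ < β := by
      rw [Metric.mem_eball, edist_zero_right, ← ofReal_norm] at hy
      exact (ENNReal.ofReal_lt_ofReal_iff hβ).1 hy
    have h1 := h y hy'
    rw [zero_add]
    refine h1.congr_fun ?_
    intro n
    rw [FormalMultilinearSeries.ofScalars_apply_eq, smul_eq_mul]

theorem coef (p : ℕ → ℝ) (c : ℕ → ℂ) (hp : p 0 = 1) (hc : c 0 = 0)
    (h : ∀ n : ℕ, ((n : ℂ) + 1) * (p (n + 1) : ℂ) =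
      ∑ i ∈ Finset.range (n + 1), ((i : ℂ) + 1) * c (i + 1) * (p (n - i) : ℂ)) (k : ℕ) :
    c k = (lc p k : ℂ) := by
  induction k using Nat.strong_induction_on with
  | _ k ih =>
    rcases k with _ | n
    · rw [hc, lc]
      simp
    · have h1 := h n
      have hn : ((n : ℂ) + 1) ≠ 0 := Nat.cast_add_one_ne_zero n
      rw [Finset.sum_range_succ, Nat.sub_self, hp] at h1
      have h2 : ∑ i ∈ Finset.range n, ((i : ℂ) + 1) * c (i + 1) * (p (n - i) : ℂ) =
          ((∑ j : Fin (n + 1), ((j : ℕ) : ℝ) * lc p j * p (n + 1 - j) : ℝ) : ℂ) := by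
        rw [Fin.sum_univ_eq_sum_range (fun j => (j : ℝ) * lc p j * p (n + 1 - j)) (n + 1),
          Finset.sum_range_succ']
        push_cast
        rw [zero_mul, zero_mul, add_zero]
        refine Finset.sum_congr rfl fun i hi => ?_
        rw [Finset.mem_range] at hi
        rw [ih (i + 1) (by omega)]
      rw [h2] at h1
      rw [lc]
      push_cast
      push_cast at h1
      field_simp
      linear_combination -h1

theorem cauchy (g : ℂ → ℂ) (β B : ℝ) (hβ : 0 < β)
    (hg : DifferentiableOn ℂ (deriv g) (ball 0 β)) (hB : ∀ z ∈ ball (0 : ℂ) β, ‖deriv g z‖ ≤ B)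
    (n : ℕ) : ‖iteratedDeriv (n + 1) g 0 / ((n + 1).factorial : ℂ)‖ ≤ B * (β⁻¹) ^ n := by
  have hB0 : 0 ≤ B := (norm_nonneg _).trans (hB 0 (mem_ball_self hβ))
  have key : ∀ R ∈ Ioo 0 β, ‖iteratedDeriv (n + 1) g 0 / ((n + 1).factorial : ℂ)‖ * R ^ n ≤ B := by
    intro R hR
    have h1 := Complex.norm_iteratedDeriv_le_of_forall_mem_sphere_norm_le (c := 0) (R := R) (C := B)
      (f := deriv g) n hR.1 (hg.diffContOnCl_ball (closedBall_subset_ball hR.2)) (by
        intro z hz
        exact hB z (closedBall_subset_ball hR.2 (sphere_subset_closedBall hz)))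
    rw [← iteratedDeriv_succ'] at h1
    rw [norm_div, Complex.norm_natCast, div_mul_eq_mul_div, div_le_iff₀ (by positivity)]
    have hRn : 0 < R ^ n := pow_pos hR.1 n
    rw [le_div_iff₀ hRn] at h1
    refine h1.trans ?_
    rw [mul_comm]
    refine mul_le_mul_of_nonneg_left ?_ hB0
    exact_mod_cast Nat.factorial_le (Nat.le_succ n)
  have h2 : ‖iteratedDeriv (n + 1) g 0 / ((n + 1).factorial : ℂ)‖ * β ^ n ≤ B := by
    have h3 : Tendsto (fun R : ℝ => ‖iteratedDeriv (n + 1) g 0 / ((n + 1).factorial : ℂ)‖ * R ^ n)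
        (𝓝[<] β) (𝓝 (‖iteratedDeriv (n + 1) g 0 / ((n + 1).factorial : ℂ)‖ * β ^ n)) := by
      refine tendsto_nhdsWithin_of_tendsto_nhds ?_
      exact (continuous_const.mul (continuous_pow n)).tendsto β
    refine le_of_tendsto h3 ?_
    filter_upwards [Ioo_mem_nhdsLT hβ] with R hR
    exact key R hR
  rw [inv_pow, ← div_eq_mul_inv, le_div_iff₀ (by positivity)]
  exact h2

end Pool.Agent.H288.BI.CAUN

namespace Pool.Agent.H288.BI

open Metric Set Filter Topology CAUN

theorem t_CAU : S_CAU := by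
  intro F p β B hβ hB hF hp hFn m
  have hβ0 : 0 < β := by linarith
  have hfp := fps F p β hβ0 hF
  have hmem : ∀ z : ℂ, z ∈ ball (0 : ℂ) β ↔ ‖z‖ < β := fun z => mem_ball_zero_iff
  have hFd : DifferentiableOn ℂ F (ball 0 β) := by
    have h1 := hfp.differentiableOn
    rw [Metric.eball_ofReal] at h1
    exact h1
  have hnhds : ball (0 : ℂ) β ∈ 𝓝 (0 : ℂ) := ball_mem_nhds 0 hβ0
  have hFa : ∀ z ∈ ball (0 : ℂ) β, AnalyticAt ℂ F z := fun z hz =>
    hFd.analyticAt (isOpen_ball.mem_nhds hz)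
  have hq : DifferentiableOn ℂ (fun z => deriv F z / F z) (ball 0 β) := by
    intro z hz
    refine DifferentiableAt.differentiableWithinAt ?_
    exact ((hFa z hz).deriv.differentiableAt).div (hFa z hz).differentiableAt
      (hFn z ((hmem z).1 hz)).1
  obtain ⟨g0, hg0⟩ := hq.isExactOn_ball
  obtain ⟨g, hg⟩ : ∃ g : ℂ → ℂ, g = fun z => g0 z - g0 0 := ⟨_, rfl⟩
  have hgd : ∀ z ∈ ball (0 : ℂ) β, HasDerivAt g (deriv F z / F z) z := by
    intro z hz
    rw [hg]
    exact (hg0 z hz).sub_const _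
  have hg00 : g 0 = 0 := by
    rw [hg]
    exact sub_self _
  have hgdiff : DifferentiableOn ℂ g (ball 0 β) := fun z hz =>
    (hgd z hz).differentiableAt.differentiableWithinAt
  have hga : AnalyticAt ℂ g 0 := hgdiff.analyticAt hnhds
  have hF0 : F 0 = 1 := by
    have h1 := hF 0 (by rw [norm_zero]; exact hβ0)
    have h2 : HasSum (fun k : ℕ => (p k : ℂ) * 0 ^ k) ((p 0 : ℂ) * 0 ^ 0) :=
      hasSum_single 0 (fun k hk => by rw [zero_pow hk, mul_zero])
    have h3 := h1.unique h2
    rw [h3, hp]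
    simp
  -- exponential
  have hexp : ∀ z ∈ ball (0 : ℂ) β, F z = Complex.exp (g z) := by
    intro z hz
    have h1 : ∀ w ∈ ball (0 : ℂ) β, HasDerivAt (fun w => F w * Complex.exp (-g w)) 0 w := by
      intro w hw
      have h2 := ((hFa w hw).differentiableAt.hasDerivAt).mul ((hgd w hw).neg.cexp)
      have h3 : deriv F w * Complex.exp (-g w) +
          F w * (Complex.exp (-g w) * -(deriv F w / F w)) = 0 := by
        have h4 := (hFn w ((hmem w).1 hw)).1
        field_simp
        ring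
      exact h2.congr_deriv h3
    have h2 := isOpen_ball.is_const_of_deriv_eq_zero (convex_ball (0 : ℂ) β).isPreconnected
      (fun w hw => (h1 w hw).differentiableAt.differentiableWithinAt)
      (fun w hw => (h1 w hw).deriv) hz (mem_ball_self hβ0)
    simp only [hF0, hg00, neg_zero, Complex.exp_zero, mul_one] at h2
    rw [Complex.exp_neg] at h2
    have h3 := Complex.exp_ne_zero (g z)
    field_simp at h2
    exact h2
  -- coefficients
  have hcoefF : ∀ n, iteratedDeriv n F 0 = (n.factorial : ℂ) * (p n : ℂ) := by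
    intro n
    have h1 := hfp.factorial_smul (1 : ℂ) n
    rw [FormalMultilinearSeries.ofScalars_apply_eq, one_pow, smul_eq_mul, mul_one,
      nsmul_eq_mul] at h1
    rw [iteratedDeriv_eq_iteratedFDeriv, ← h1]
  obtain ⟨c, hc⟩ : ∃ c : ℕ → ℂ, ∀ k, c k = iteratedDeriv k g 0 / (k.factorial : ℂ) :=
    ⟨_, fun _ => rfl⟩
  have hc0 : c 0 = 0 := by
    rw [hc, iteratedDeriv_zero, hg00, zero_div]
  have hder : deriv F =ᶠ[𝓝 0] deriv g * F := by
    filter_upwards [hnhds] with z hz
    rw [Pi.mul_apply, (hgd z hz).deriv]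
    have h4 := (hFn z ((hmem z).1 hz)).1
    field_simp
  have hrec : ∀ n : ℕ, ((n : ℂ) + 1) * (p (n + 1) : ℂ) =
      ∑ i ∈ Finset.range (n + 1), ((i : ℂ) + 1) * c (i + 1) * (p (n - i) : ℂ) := by
    intro n
    have h1 : iteratedDeriv (n + 1) F 0 = iteratedDeriv n (deriv g * F) 0 := by
      rw [iteratedDeriv_succ']
      exact hder.iteratedDeriv_eq n
    rw [iteratedDeriv_mul hga.deriv.contDiffAt (hFa 0 (mem_ball_self hβ0)).contDiffAt,
      hcoefF] at h1
    have hn : (n.factorial : ℂ) ≠ 0 := by exact_mod_cast n.factorial_ne_zero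
    have h2 : (n.factorial : ℂ) * (((n : ℂ) + 1) * (p (n + 1) : ℂ)) = (n.factorial : ℂ) *
        ∑ i ∈ Finset.range (n + 1), ((i : ℂ) + 1) * c (i + 1) * (p (n - i) : ℂ) := by
      rw [Nat.factorial_succ] at h1
      push_cast at h1
      rw [Finset.mul_sum]
      calc (n.factorial : ℂ) * (((n : ℂ) + 1) * (p (n + 1) : ℂ)) =
            ((n : ℂ) + 1) * (n.factorial : ℂ) * (p (n + 1) : ℂ) := by ring
        _ = _ := h1
        _ = _ := by
          refine Finset.sum_congr rfl fun i hi => ?_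
          rw [Finset.mem_range] at hi
          rw [← iteratedDeriv_succ', hcoefF, hc]
          have h3 : ((i + 1).factorial : ℂ) ≠ 0 := by exact_mod_cast (i + 1).factorial_ne_zero
          have h4 : (n.choose i : ℂ) * (i.factorial : ℂ) * ((n - i).factorial : ℂ) =
              (n.factorial : ℂ) := by
            exact_mod_cast Nat.choose_mul_factorial_mul_factorial (by omega)
          have h5 : ((i + 1).factorial : ℂ) = ((i : ℂ) + 1) * (i.factorial : ℂ) := by
            rw [Nat.factorial_succ]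
            push_cast
            ring
          have h6 : (i.factorial : ℂ) ≠ 0 := by exact_mod_cast i.factorial_ne_zero
          have h7 : ((i : ℂ) + 1) ≠ 0 := Nat.cast_add_one_ne_zero i
          rw [← h4, h5]
          field_simp
    exact mul_left_cancel₀ hn h2
  have hck := coef p c hp hc0 hrec
  -- bounds
  have hgderiv : DifferentiableOn ℂ (deriv g) (ball 0 β) := hgdiff.deriv isOpen_ball
  have hbd : ∀ n, |lc p (n + 1)| ≤ B * (β⁻¹) ^ n := by
    intro n
    have h1 := cauchy g β B hβ0 hgderiv (by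
      intro z hz
      rw [(hgd z hz).deriv, norm_div]
      obtain ⟨h2, h3⟩ := hFn z ((hmem z).1 hz)
      rw [div_le_iff₀ (norm_pos_iff.2 h2)]
      exact h3) n
    rw [← hc, hck, Complex.norm_real] at h1
    exact h1
  have hβi0 : 0 ≤ β⁻¹ := by positivity
  have hβi1 : β⁻¹ < 1 := inv_lt_one_of_one_lt₀ hβ
  have hgeo := hasSum_geometric_of_lt_one hβi0 hβi1
  have hsum : Summable (fun n => lc p n) := by
    refine (summable_nat_add_iff 1).1 ?_
    exact Summable.of_norm_bounded (hgeo.summable.mul_left B) hbd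
  have hone : (1 : ℂ) ∈ ball (0 : ℂ) β := by
    rw [hmem, norm_one]
    exact hβ
  have hg1 : g 1 = ((∑' k, lc p k : ℝ) : ℂ) := by
    have h1 := Complex.hasSum_taylorSeries_on_ball hgdiff hone
    have h2 : HasSum (fun k => (lc p k : ℂ)) (g 1) := by
      refine h1.congr_fun ?_
      intro k
      rw [← hck, hc, sub_zero, one_pow, one_smul, smul_eq_mul, div_eq_inv_mul]
    exact h2.unique (Complex.hasSum_ofReal.2 hsum.hasSum)
  have hF1 : F 1 = ((Real.exp (∑' k, lc p k) : ℝ) : ℂ) := by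
    rw [hexp 1 hone, hg1, Complex.ofReal_exp]
  rw [hF1, Complex.ofReal_re, Complex.ofReal_im]
  refine ⟨Real.exp_pos _, rfl, ?_⟩
  rw [Real.log_exp, ← hsum.sum_add_tsum_nat_add (m + 1), add_sub_cancel_left]
  have h1 : HasSum (fun k : ℕ => B * (β⁻¹) ^ m * (β⁻¹) ^ k) (B * (β⁻¹) ^ m * (1 - β⁻¹)⁻¹) :=
    hgeo.mul_left _
  have h2 := tsum_of_norm_bounded (f := fun k => lc p (k + (m + 1))) h1 (by
    intro k
    have h3 := hbd (k + m)
    rw [pow_add] at h3
    rw [Real.norm_eq_abs, ← add_assoc]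
    refine h3.trans (le_of_eq (by ring)))
  rw [Real.norm_eq_abs] at h2
  refine h2.trans (le_of_eq ?_)
  have h3 : β - 1 ≠ 0 := by linarith
  have h4 : (1 - β⁻¹)⁻¹ = β / (β - 1) := by
    have : 1 - β⁻¹ = (β - 1) / β := by
      field_simp
    rw [this, inv_div]
  rw [h4]
  ring

end Pool.Agent.H288.BI
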