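import Pool.Agent.H288.BI.Stm

/-!
# Project BI (helper288), task CMP (helper686): composition of power series
-/

set_option autoImplicit false

open MeasureTheory Set Filter Topology

namespace Pool.Agent.H288.BI

namespace CMPN

/-- the coefficients of `φ` -/
noncomputable def cc (κ : ℝ) : ℕ → ℝ
  | 0 => 0
  | i + 1 => (1 - Real.exp (-κ)) ^ (i + 1) / (κ * ((i : ℝ) + 1))

theorem cc_nonneg {κ : ℝ} (hκ : 0 < κ) (i : ℕ) : 0 ≤ cc κ i := by
  cases i with
  | zero => exact le_rfl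
  | succ i =>
    have h1 : 0 ≤ 1 - Real.exp (-κ) := by
      have := Real.exp_le_one_iff.2 (show -κ ≤ 0 by linarith)
      linarith
    show 0 ≤ (1 - Real.exp (-κ)) ^ (i + 1) / (κ * ((i : ℝ) + 1))
    positivity

theorem pc_succ (κ : ℝ) (j k : ℕ) :
    pc κ (j + 1) k = ∑ i ∈ Finset.range (k + 1), cc κ i * pc κ j (k - i) := by
  rw [Finset.sum_range_succ']
  show pc κ (j + 1) k = _ + 0 * _
  rw [zero_mul, add_zero]
  rfl

theorem pc_nonneg {κ : ℝ} (hκ : 0 < κ) (j : ℕ) : ∀ k, 0 ≤ pc κ j k := by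
  induction j with
  | zero =>
    intro k
    show 0 ≤ (if k = 0 then (1 : ℝ) else 0)
    split_ifs <;> norm_num
  | succ j ih =>
    intro k
    rw [pc_succ]
    exact Finset.sum_nonneg fun i _ => mul_nonneg (cc_nonneg hκ i) (ih _)

theorem pc_zero (κ : ℝ) (j : ℕ) : ∀ k, k < j → pc κ j k = 0 := by
  induction j with
  | zero =>
    intro k hk
    exact absurd hk (Nat.not_lt_zero k)
  | succ j ih =>
    intro k hk
    rw [pc_succ]
    apply Finset.sum_eq_zero
    intro i hi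
    cases i with
    | zero =>
      show 0 * _ = _
      rw [zero_mul]
    | succ i =>
      have := Finset.mem_range.1 hi
      rw [ih _ (by omega), mul_zero]

/-- powers of a power series -/
theorem pow_series {κ : ℝ} (hκ : 0 < κ) {z w : ℂ}
    (h : HasSum (fun k : ℕ => (cc κ k : ℂ) * z ^ k) w) (j : ℕ) :
    HasSum (fun k : ℕ => (pc κ j k : ℂ) * z ^ k) (w ^ j) := by
  have hn : Summable fun k : ℕ => ‖(cc κ k : ℂ) * z ^ k‖ := h.summable.norm
  induction j with
  | zero =>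
    have h1 : HasSum (fun k : ℕ => (pc κ 0 k : ℂ) * z ^ k)
        (∑ k ∈ Finset.range 1, (pc κ 0 k : ℂ) * z ^ k) := by
      apply hasSum_sum_of_ne_finset_zero
      intro k hk
      have hk0 : k ≠ 0 := by
        rintro rfl
        exact hk (Finset.mem_range.2 one_pos)
      have h2 : pc κ 0 k = 0 := by
        show (if k = 0 then (1 : ℝ) else 0) = 0
        rw [if_neg hk0]
      rw [h2, Complex.ofReal_zero, zero_mul]
    have h3 : pc κ 0 0 = 1 := by
      show (if 0 = 0 then (1 : ℝ) else 0) = 1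
      rw [if_pos rfl]
    rw [Finset.sum_range_one, h3] at h1
    simpa using h1
  | succ j ih =>
    have h1 := hasSum_sum_range_mul_of_summable_norm hn ih.summable.norm
    rw [h.tsum_eq, ih.tsum_eq] at h1
    rw [pow_succ']
    have h2 : (fun k : ℕ => (pc κ (j + 1) k : ℂ) * z ^ k) = fun n =>
        ∑ k ∈ Finset.range (n + 1), (cc κ k : ℂ) * z ^ k * ((pc κ j (n - k) : ℂ) * z ^ (n - k)) := by
      funext n
      rw [pc_succ]
      push_cast
      rw [Finset.sum_mul]
      refine Finset.sum_congr rfl fun k hk => ?_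
      have h3 : z ^ n = z ^ k * z ^ (n - k) := by
        rw [← pow_add]
        congr 1
        have := Finset.mem_range.1 hk
        omega
      rw [h3]
      ring
    rw [h2]
    exact h1

end CMPN

open CMPN

theorem t_CMP : S_CMP := by
  intro a κ l β φ hκ _ hφ ha z hz
  have hser : ∀ z : ℂ, ‖z‖ < β → HasSum (fun k : ℕ => (cc κ k : ℂ) * z ^ k) (φ z) := by
    intro z hz
    have h1 := hφ z hz
    have h2 := (hasSum_nat_add_iff (f := fun k : ℕ => (cc κ k : ℂ) * z ^ k) (g := φ z) 1).1 h1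
    have h3 : ∑ i ∈ Finset.range 1, (cc κ i : ℂ) * z ^ i = 0 := by
      rw [Finset.sum_range_one]
      show ((0 : ℝ) : ℂ) * z ^ 0 = 0
      simp
    rw [h3, add_zero] at h2
    exact h2
  -- the majorant
  have hzr : ‖((‖z‖ : ℝ) : ℂ)‖ < β := by
    rw [Complex.norm_real, norm_norm]
    exact hz
  have hmaj := hser _ hzr
  have hR : HasSum (fun k : ℕ => cc κ k * ‖z‖ ^ k) (φ ((‖z‖ : ℝ) : ℂ)).re := by
    have h1 := Complex.hasSum_re hmaj
    have h2 : (fun k : ℕ => ((cc κ k : ℂ) * ((‖z‖ : ℝ) : ℂ) ^ k).re) =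
        fun k : ℕ => cc κ k * ‖z‖ ^ k := by
      funext k
      rw [← Complex.ofReal_pow, ← Complex.ofReal_mul, Complex.ofReal_re]
    rw [h2] at h1
    exact h1
  obtain ⟨R, hRd⟩ : ∃ R : ℝ, R = (φ ((‖z‖ : ℝ) : ℂ)).re := ⟨_, rfl⟩
  rw [← hRd] at hR
  have hR0 : 0 ≤ R := hR.nonneg fun k => mul_nonneg (cc_nonneg hκ k) (by positivity)
  have hφR : φ ((‖z‖ : ℝ) : ℂ) = (R : ℂ) := by
    have h1 : HasSum (fun k : ℕ => ((cc κ k * ‖z‖ ^ k : ℝ) : ℂ)) (R : ℂ) :=
      (Complex.hasSum_ofReal).2 hR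
    have h2 : (fun k : ℕ => ((cc κ k * ‖z‖ ^ k : ℝ) : ℂ)) =
        fun k : ℕ => (cc κ k : ℂ) * ((‖z‖ : ℝ) : ℂ) ^ k := by
      funext k
      push_cast
      ring
    rw [h2] at h1
    exact hmaj.unique h1
  have hpcR : ∀ j, HasSum (fun k : ℕ => pc κ j k * ‖z‖ ^ k) (R ^ j) := by
    intro j
    have h1 := pow_series hκ hmaj j
    rw [hφR] at h1
    have h2 : (fun k : ℕ => (pc κ j k : ℂ) * ((‖z‖ : ℝ) : ℂ) ^ k) =
        fun k : ℕ => ((pc κ j k * ‖z‖ ^ k : ℝ) : ℂ) := by
      funext k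
      push_cast
      ring
    rw [h2, ← Complex.ofReal_pow] at h1
    exact (Complex.hasSum_ofReal).1 h1
  -- the double series
  obtain ⟨T, hT⟩ : ∃ T : ℕ × ℕ → ℂ, T = fun p => (a p.1 : ℂ) * (l : ℂ) ^ p.1 *
    ((pc κ p.1 p.2 : ℂ) * z ^ p.2) := ⟨_, rfl⟩
  have hTn : ∀ j k, ‖T (j, k)‖ = |a j| * |l| ^ j * (pc κ j k * ‖z‖ ^ k) := by
    intro j k
    rw [hT]
    simp only [norm_mul, norm_pow, Complex.norm_real, Real.norm_eq_abs,
      abs_of_nonneg (pc_nonneg hκ j k)]
  have hTs : Summable T := by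
    apply Summable.of_norm
    rw [summable_prod_of_nonneg (fun p => norm_nonneg _)]
    constructor
    · intro j
      simp only [hTn]
      exact ((hpcR j).summable).mul_left _
    · have h1 : (fun j : ℕ => ∑' k, ‖T (j, k)‖) = fun j => |a j| * |(|l| * R)| ^ j := by
        funext j
        simp only [hTn]
        rw [tsum_mul_left, (hpcR j).tsum_eq, abs_of_nonneg (mul_nonneg (abs_nonneg l) hR0),
          mul_pow]
        ring
      rw [h1]
      exact ha _
  have h1 : ∑' p, T p = ∑' j : ℕ, (a j : ℂ) * ((l : ℂ) * φ z) ^ j := by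
    rw [hTs.tsum_prod]
    refine tsum_congr fun j => ?_
    rw [hT]
    simp only
    rw [tsum_mul_left, (pow_series hκ (hser z hz) j).tsum_eq, mul_pow]
    ring
  rw [← h1]
  have h2 : HasSum (fun p : ℕ × ℕ => T p.swap) (∑' p, T p) :=
    (Equiv.prodComm ℕ ℕ).hasSum_iff.2 hTs.hasSum
  refine h2.prod_fiberwise fun k => ?_
  have h3 : HasSum (fun j : ℕ => T (j, k)) (∑ j ∈ Finset.range (k + 1), T (j, k)) := by
    apply hasSum_sum_of_ne_finset_zero
    intro j hj
    rw [hT]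
    simp only
    have hkj : k < j := by
      by_contra hcon
      exact hj (Finset.mem_range.2 (by omega))
    rw [pc_zero κ j k hkj]
    simp
  have h4 : ∑ j ∈ Finset.range (k + 1), T (j, k) = (fc κ l a k : ℂ) * z ^ k := by
    unfold fc
    push_cast
    rw [Finset.sum_mul, hT]
    refine Finset.sum_congr rfl fun j _ => ?_
    ring
  rw [h4] at h3
  exact h3

end Pool.Agent.H288.BI
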