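import Pool.Agent.H288.BI.Stm

set_option autoImplicit false

namespace Pool.Agent.H288.BI

namespace DEPN

theorem lc_congr (p q : ℕ → ℝ) (m : ℕ) (h : ∀ j ≤ m, p j = q j) : ∀ k ≤ m, lc p k = lc q k := by
  intro k
  induction k using Nat.strong_induction_on with
  | _ k ih =>
    intro hk
    rcases k with _ | k
    · rw [lc, lc]
    · rw [lc, lc, h (k + 1) hk]
      have h1 : ∑ j : Fin (k + 1), ((j : ℕ) : ℝ) * lc p j * p (k + 1 - j) =
          ∑ j : Fin (k + 1), ((j : ℕ) : ℝ) * lc q j * q (k + 1 - j) := by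
        refine Finset.sum_congr rfl fun j _ => ?_
        have hj := j.2
        rw [ih j hj (by omega), h (k + 1 - j) (by omega)]
      rw [h1]

end DEPN

theorem t_DEP : S_DEP := by
  intro κ l a a' m h
  unfold appr
  refine Finset.sum_congr rfl fun k hk => ?_
  rw [Finset.mem_range] at hk
  refine DEPN.lc_congr _ _ m (fun j hj => ?_) k (by omega)
  unfold fc
  refine Finset.sum_congr rfl fun i hi => ?_
  rw [Finset.mem_range] at hi
  rw [h i (by omega)]

end Pool.Agent.H288.BI
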