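import Pool.Agent.H288.BI.Stm

set_option autoImplicit false

namespace Pool.Agent.H288.BI

open Complex in
theorem MAPN.aux {κ : ℝ} (hκ : 0 < κ) {w : ℂ} (hw : ‖w‖ < 1 - Real.exp (-κ - 1)) :
    ∃ t : ℝ, 0 ≤ t ∧ t ≤ 1 ∧ ‖-(1 / (κ : ℂ)) * Complex.log (1 - w) - (t : ℂ)‖ ≤ 3 / κ := by
  have hδ0 : 0 < Real.exp (-κ - 1) := Real.exp_pos _
  have hre : 0 < (1 - w).re := by
    have h1 := Complex.re_le_norm w
    rw [Complex.sub_re, Complex.one_re]
    linarith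
  have hn1 : Real.exp (-κ - 1) ≤ ‖1 - w‖ := by
    have h1 := norm_sub_norm_le (1 : ℂ) w
    rw [norm_one] at h1
    linarith
  have hn2 : ‖1 - w‖ ≤ 2 := by
    have h1 := norm_sub_le (1 : ℂ) w
    rw [norm_one] at h1
    linarith
  have hnp : 0 < ‖1 - w‖ := lt_of_lt_of_le hδ0 hn1
  have hL1 : -κ - 1 ≤ Real.log ‖1 - w‖ := by
    rw [Real.le_log_iff_exp_le hnp]
    exact hn1
  have hL2 : Real.log ‖1 - w‖ ≤ 1 := by
    have h1 := Real.log_le_log hnp hn2
    have h2 := Real.log_two_lt_d9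
    linarith
  have harg : |(1 - w).arg| ≤ Real.pi / 2 := by
    rw [Complex.abs_arg_le_pi_div_two_iff]
    exact hre.le
  set φ : ℂ := -(1 / (κ : ℂ)) * Complex.log (1 - w) with hφ
  have hφe : φ = ((-(1 / κ) : ℝ) : ℂ) * Complex.log (1 - w) := by
    rw [hφ]; push_cast; rfl
  have hr : φ.re = -(1 / κ) * Real.log ‖1 - w‖ := by
    rw [hφe, Complex.re_ofReal_mul, Complex.log_re]
  have hi : φ.im = -(1 / κ) * (1 - w).arg := by
    rw [hφe, Complex.im_ofReal_mul, Complex.log_im]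
  have hk : 0 < 1 / κ := by positivity
  have hr1 : -(1 / κ) ≤ φ.re := by
    rw [hr]
    have := mul_le_mul_of_nonneg_left hL2 hk.le
    linarith
  have hr2 : φ.re ≤ 1 + 1 / κ := by
    rw [hr]
    have h1 := mul_le_mul_of_nonneg_left hL1 hk.le
    have h2 : 1 / κ * (-κ - 1) = -(1 + 1 / κ) := by
      field_simp
      ring
    linarith
  have hi1 : |φ.im| ≤ 2 * (1 / κ) := by
    rw [hi, abs_mul, abs_neg, abs_of_pos hk]
    have h1 := Real.pi_lt_d2
    have h2 : |(1 - w).arg| ≤ 2 := by linarith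
    have h3 := mul_le_mul_of_nonneg_left h2 hk.le
    linarith
  obtain ⟨t, ht0, ht1, htd⟩ : ∃ t : ℝ, 0 ≤ t ∧ t ≤ 1 ∧ |φ.re - t| ≤ 1 / κ := by
    rcases lt_or_ge φ.re 0 with h | h
    · refine ⟨0, le_rfl, zero_le_one, ?_⟩
      rw [sub_zero, abs_of_neg h]
      linarith
    · rcases le_or_gt φ.re 1 with h' | h'
      · refine ⟨φ.re, h, h', ?_⟩
        rw [sub_self, abs_zero]
        exact hk.le
      · refine ⟨1, zero_le_one, le_rfl, ?_⟩
        rw [abs_of_pos (by linarith)]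
        linarith
  refine ⟨t, ht0, ht1, ?_⟩
  refine (Complex.norm_le_abs_re_add_abs_im _).trans ?_
  rw [Complex.sub_re, Complex.sub_im, Complex.ofReal_re, Complex.ofReal_im, sub_zero]
  have h3 : 3 / κ = 1 / κ + 2 * (1 / κ) := by ring
  rw [h3]
  exact add_le_add htd hi1

theorem t_MAP : S_MAP := by
  intro l₁ ε hl hε
  obtain ⟨κ, hκ⟩ : ∃ κ : ℝ, κ = 3 * l₁ / ε + 1 := ⟨_, rfl⟩
  have hκ0 : 0 < κ := by rw [hκ]; positivity
  have hκε : l₁ * (3 / κ) < ε := by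
    have h1 : ε * κ = 3 * l₁ + ε := by rw [hκ]; field_simp
    rw [← mul_div_assoc, div_lt_iff₀ hκ0]
    linarith
  have he1 : Real.exp (-κ) < 1 := by
    rw [Real.exp_lt_one_iff]
    linarith
  obtain ⟨a, ha⟩ : ∃ a : ℝ, a = 1 - Real.exp (-κ) := ⟨_, rfl⟩
  have ha0 : 0 < a := by rw [ha]; linarith
  obtain ⟨δ, hδ⟩ : ∃ δ : ℝ, δ = Real.exp (-κ - 1) := ⟨_, rfl⟩
  have hδ0 : 0 < δ := by rw [hδ]; exact Real.exp_pos _
  have hδ1 : δ < Real.exp (-κ) := by rw [hδ]; exact Real.exp_lt_exp.2 (by linarith)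
  have hβ : 1 < (1 - δ) / a := by
    rw [lt_div_iff₀ ha0, ha]
    linarith
  have hw : ∀ z : ℂ, ‖z‖ < (1 - δ) / a → ‖(a : ℂ) * z‖ < 1 - δ := by
    intro z hz
    rw [norm_mul, Complex.norm_real, Real.norm_eq_abs, abs_of_pos ha0]
    rw [lt_div_iff₀ ha0] at hz
    linarith
  refine ⟨κ, (1 - δ) / a, a / (κ * δ), hκ0, hβ, by positivity,
    fun z => -(1 / (κ : ℂ)) * Complex.log (1 - a * z), ?_, ?_, ?_⟩
  · intro z hz
    have hw1 : ‖(a : ℂ) * z‖ < 1 := by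
      have := hw z hz
      linarith
    have h := (Complex.hasSum_taylorSeries_neg_log' hw1).mul_left (1 / (κ : ℂ))
    have e1 : 1 / (κ : ℂ) * -Complex.log (1 - a * z) = -(1 / (κ : ℂ)) * Complex.log (1 - a * z) := by
      ring
    rw [e1] at h
    have hκc : (κ : ℂ) ≠ 0 := by exact_mod_cast hκ0.ne'
    have e2 : (fun i : ℕ => (((1 - Real.exp (-κ)) ^ (i + 1) / (κ * ((i : ℝ) + 1)) : ℝ) : ℂ) *
        z ^ (i + 1)) = fun i : ℕ => 1 / (κ : ℂ) * (((a : ℂ) * z) ^ (i + 1) / ((i : ℂ) + 1)) := by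
      funext i
      rw [← ha, mul_pow]
      have hi : ((i : ℂ) + 1) ≠ 0 := by exact_mod_cast Nat.succ_ne_zero i
      push_cast
      field_simp
    show HasSum (fun i : ℕ => (((1 - Real.exp (-κ)) ^ (i + 1) / (κ * ((i : ℝ) + 1)) : ℝ) : ℂ) *
        z ^ (i + 1)) (-(1 / (κ : ℂ)) * Complex.log (1 - a * z))
    rw [e2]
    exact h
  · have h1 : (1 : ℂ) - (a : ℂ) * 1 = ((Real.exp (-κ) : ℝ) : ℂ) := by
      rw [ha]; push_cast; ring
    have h2 : Complex.log ((Real.exp (-κ) : ℝ) : ℂ) = ((-κ : ℝ) : ℂ) := by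
      rw [← Complex.ofReal_log (Real.exp_pos _).le, Real.log_exp]
    have hκc : (κ : ℂ) ≠ 0 := by exact_mod_cast hκ0.ne'
    show -(1 / (κ : ℂ)) * Complex.log (1 - a * 1) = 1
    rw [h1, h2]
    push_cast
    field_simp
  · intro z hz
    have hw' := hw z hz
    have hre : 0 < (1 - (a : ℂ) * z).re := by
      have h1 := Complex.re_le_norm ((a : ℂ) * z)
      rw [Complex.sub_re, Complex.one_re]
      linarith
    have hsl : (1 - (a : ℂ) * z) ∈ Complex.slitPlane := Or.inl hre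
    have hd1 : HasDerivAt (fun z : ℂ => 1 - (a : ℂ) * z) (-(a : ℂ)) z := by
      have := ((hasDerivAt_id z).const_mul (a : ℂ)).const_sub 1
      rwa [mul_one] at this
    have hd2 := (hd1.clog hsl).const_mul (-(1 / (κ : ℂ)))
    have hn1 : δ ≤ ‖1 - (a : ℂ) * z‖ := by
      have h1 := norm_sub_norm_le (1 : ℂ) ((a : ℂ) * z)
      rw [norm_one] at h1
      linarith
    refine ⟨hd2.differentiableAt, ?_, ?_⟩
    · rw [hd2.deriv, norm_mul, norm_neg, norm_div, norm_one, norm_div, norm_neg,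
        Complex.norm_real, Complex.norm_real, Real.norm_eq_abs, Real.norm_eq_abs, abs_of_pos ha0,
        abs_of_pos hκ0]
      have h2 : a / ‖1 - (a : ℂ) * z‖ ≤ a / δ := div_le_div_of_nonneg_left ha0.le hδ0 hn1
      calc 1 / κ * (a / ‖1 - (a : ℂ) * z‖) ≤ 1 / κ * (a / δ) :=
            mul_le_mul_of_nonneg_left h2 (by positivity)
        _ = a / (κ * δ) := by field_simp
    · intro l hl0 hl1
      rw [hδ] at hw'
      obtain ⟨t, ht0, ht1, htd⟩ := MAPN.aux hκ0 hw'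
      refine ⟨l * t, by positivity, by nlinarith, ?_⟩
      have e2 : (l : ℂ) * (-(1 / (κ : ℂ)) * Complex.log (1 - a * z)) - ((l * t : ℝ) : ℂ) =
          (l : ℂ) * (-(1 / (κ : ℂ)) * Complex.log (1 - a * z) - (t : ℂ)) := by
        push_cast
        ring
      show ‖(l : ℂ) * (-(1 / (κ : ℂ)) * Complex.log (1 - a * z)) - ((l * t : ℝ) : ℂ)‖ < ε
      rw [e2, norm_mul, Complex.norm_real, Real.norm_eq_abs, abs_of_nonneg hl0]
      refine lt_of_le_of_lt ?_ hκε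
      exact mul_le_mul hl1 htd (norm_nonneg _) hl.le

end Pool.Agent.H288.BI
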